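import Pool.Agent.Lib.MP_b5021c_nt.IfaceB

/-!
# Board b5, row SLM: slices are multiplicative
-/

namespace Pool.Agent.B5.H96

open Pool.Agent.B5

variable {L : Type} [AddCommGroup L]

/-- `sl` as an additive map. -/
theorem sl_add (u : AddChar L Circle) (lam : L →+ ℤ) (p q : CA L) :
    sl u lam (p + q) = sl u lam p + sl u lam q := by
  unfold sl
  rw [AddMonoidAlgebra.coeff_add, Finsupp.sum_add_index']
  · intro a; simp
  · intro a b c; rw [add_mul, map_add]

theorem sl_zero (u : AddChar L Circle) (lam : L →+ ℤ) : sl u lam (0 : CA L) = 0 := by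
  unfold sl; simp

/-- `sl` as a bundled additive map. -/
noncomputable def slHom (u : AddChar L Circle) (lam : L →+ ℤ) : CA L →+ Polynomial ℂ where
  toFun := sl u lam
  map_zero' := sl_zero u lam
  map_add' := sl_add u lam

theorem sl_single (u : AddChar L Circle) (lam : L →+ ℤ) (a : L) (c : ℂ) :
    sl u lam (AddMonoidAlgebra.single a c) = Polynomial.monomial (lam a).toNat (c * (u a : ℂ)) := by
  unfold sl
  rw [AddMonoidAlgebra.coeff_single, Finsupp.sum_single_index]
  simp

theorem eq_sum (p : CA L) :
    p = ∑ a ∈ p.coeff.support, AddMonoidAlgebra.single a (p.coeff a) := by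
  apply AddMonoidAlgebra.ext
  rw [AddMonoidAlgebra.coeff_sum]
  simp only [AddMonoidAlgebra.coeff_single]
  exact (Finsupp.sum_single p.coeff).symm

theorem slm : SlMulS := by
  classical
  intro L _ _ _ u lam p q hp hq
  have hm : p * q = ∑ a ∈ p.coeff.support, ∑ b ∈ q.coeff.support,
      AddMonoidAlgebra.single (a + b) (p.coeff a * q.coeff b) := by
    conv_lhs => rw [eq_sum p, eq_sum q]
    rw [Finset.sum_mul_sum]
    refine Finset.sum_congr rfl fun a _ => Finset.sum_congr rfl fun b _ => ?_
    rw [AddMonoidAlgebra.single_mul_single]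
  constructor
  · have h1 : sl u lam (p * q) = slHom u lam (p * q) := rfl
    rw [h1, hm, map_sum]
    have h2 : sl u lam p = ∑ a ∈ p.coeff.support,
        Polynomial.monomial (lam a).toNat (p.coeff a * (u a : ℂ)) := rfl
    have h3 : sl u lam q = ∑ a ∈ q.coeff.support,
        Polynomial.monomial (lam a).toNat (q.coeff a * (u a : ℂ)) := rfl
    rw [h2, h3, Finset.sum_mul_sum]
    refine Finset.sum_congr rfl fun a ha => ?_
    rw [map_sum]
    refine Finset.sum_congr rfl fun b hb => ?_
    change sl u lam _ = _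
    rw [sl_single, Polynomial.monomial_mul_monomial, map_add lam,
      Int.toNat_add (hp a ha) (hq b hb), AddChar.map_add_eq_mul, Circle.coe_mul]
    congr 1
    ring
  · intro c hc
    rw [hm, AddMonoidAlgebra.coeff_sum] at hc
    obtain ⟨a, ha, hc2⟩ := Finset.mem_biUnion.mp (Finsupp.support_finsetSum hc)
    rw [AddMonoidAlgebra.coeff_sum] at hc2
    obtain ⟨b, hb, hc3⟩ := Finset.mem_biUnion.mp (Finsupp.support_finsetSum hc2)
    rw [AddMonoidAlgebra.coeff_single] at hc3
    have h4 := Finset.mem_singleton.mp (Finsupp.support_single_subset hc3)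
    rw [h4, map_add]
    exact add_nonneg (hp a ha) (hq b hb)

end Pool.Agent.B5.H96
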