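import Pool.Agent.Lib.MP_b5021c_nt.H96.Fce

/-!
# Board b5, row FCE: the face on a facet, end
-/

namespace Pool.Agent.B5.H96

open Pool.Agent.B5
open scoped LaurentPolynomial

section

variable {O : Type} [CommRing O] [IsDomain O] [IsPrincipalIdealRing O] [Coef O]
  {L : Type} [AddCommGroup L] [Module.Free ℤ L] [Module.Finite ℤ L]

theorem edge_full (hEv : EvRS) {b : L} (hb0 : b ≠ 0) {p q : RO O} (hp : IsUnit p) (hq : IsUnit q)
    {mu : L →+ ℤ} (hmu : 0 < mu b) :
    FullAt mu (cst p + AddMonoidAlgebra.single b q : AO O L) := by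
  classical
  have h0 : (cst p + AddMonoidAlgebra.single b q : AO O L).coeff 0 = p := by
    unfold cst
    simp [hb0]
  refine ⟨by rw [h0]; exact hp.ne_zero, ?_, ?_⟩
  · intro a ha ha0
    have h1 : a = b := by
      by_contra hab
      apply Finsupp.mem_support_iff.mp ha
      unfold cst
      simp [Ne.symm ha0, Ne.symm hab]
    rw [h1]; exact hmu
  · intro z _ u s hs
    have h1 : spec z (cst p + AddMonoidAlgebra.single b q : AO O L) =
        AddMonoidAlgebra.single 0 (evR z p) + AddMonoidAlgebra.single b (evR z q) := by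
      unfold spec cst
      simp
    rw [h1, sl_add, sl_single, sl_single, Polynomial.eval_add, Polynomial.eval_monomial,
      Polynomial.eval_monomial, map_zero mu, Int.toNat_zero, pow_zero, mul_one] at hs
    have h2 := (hEv O).2.1 z p hp
    have h3 := (hEv O).2.1 z q hq
    have h4 : evR z q * (u b : ℂ) * s ^ (mu b).toNat = - (evR z p * (u 0 : ℂ)) := by
      rw [eq_neg_iff_add_eq_zero, add_comm]; exact hs
    have h5 := congrArg norm h4
    rw [norm_neg, norm_mul, norm_mul, norm_mul, h2, h3, Circle.norm_coe, Circle.norm_coe,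
      norm_pow] at h5
    simp only [one_mul] at h5
    exact (pow_eq_one_iff_of_nonneg (norm_nonneg s) (by omega)).mp h5

theorem edge_contra (hC3 : C3S) (hExt : ExtS) (hEv : EvRS)
    {G : AO O L} {lam : L →+ ℤ} (hG : Irreducible G) (hGs : Stable G) (hn : Nn lam G)
    (hnot : ¬ ∀ a ∈ supp G, lam a = 0) {c : RO O} {B : AO O (Ker lam)} (hB : Stable B)
    (hcB : res (Ker lam) G = cst c * B) {b : Ker lam} (hray : Ray B b)
    (hu0 : IsUnit (B.coeff 0)) (hub : IsUnit (B.coeff b)) : False := by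
  classical
  obtain ⟨hb, hb0, mu0, hm1, hm2⟩ := hray
  obtain ⟨mu1, hmu1⟩ := (hExt L (Ker lam) (sat_Ker lam)).2 mu0
  obtain ⟨mu, hmu⟩ := hB.2
  obtain ⟨mu', hmu'⟩ := (hExt L (Ker lam) (sat_Ker lam)).2 mu
  set N : ℤ := 1 + ∑ a ∈ G.coeff.support, |mu1 a| with hN
  set lam' : L →+ ℤ := N • lam + mu1 with hlam'
  have hlam'a : ∀ a, lam' a = N * lam a + mu1 a := fun a => by simp [hlam']
  have hpos : ∀ a ∈ supp G, lam a ≠ 0 → 0 < lam' a := by
    intro a ha h0
    have ha' : a ∈ G.coeff.support := Finsupp.mem_support_iff.mpr ha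
    have h1 : 1 ≤ lam a := by
      have := hn a ha'
      omega
    have h2 : |mu1 a| ≤ ∑ a ∈ G.coeff.support, |mu1 a| :=
      Finset.single_le_sum (f := fun a => |mu1 a|) (fun i _ => abs_nonneg _) ha'
    have h3 := neg_abs_le (mu1 a)
    have hN0 : 0 ≤ N := by
      have := abs_nonneg (mu1 a)
      omega
    have h4 : N ≤ N * lam a := by nlinarith
    rw [hlam'a]
    linarith
  have hker : ∀ a : Ker lam, lam' (a : L) = mu0 a := by
    intro a
    rw [hlam'a, hmu1, mem_Ker.mp a.2, mul_zero, zero_add]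
  have hsuppB : ∀ a : Ker lam, (a : L) ∈ supp G → a ∈ supp B := by
    intro a ha h0
    apply ha
    have h1 := congrArg (fun F => F.coeff a) hcB
    simp only [res_coeff, cst_mul_coeff] at h1
    rw [h1, h0, mul_zero]
  have hnn : Nn lam' G := by
    intro a ha
    have ha' : a ∈ supp G := Finsupp.mem_support_iff.mp ha
    by_cases h0 : lam a = 0
    · have h1 := hker ⟨a, mem_Ker.mpr h0⟩
      have h2 := hsuppB ⟨a, mem_Ker.mpr h0⟩ ha'
      change lam' a = _ at h1
      rw [h1]
      by_cases h3 : (⟨a, mem_Ker.mpr h0⟩ : Ker lam) = 0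
      · rw [h3, map_zero]
      · by_cases h4 : (⟨a, mem_Ker.mpr h0⟩ : Ker lam) = b
        · rw [h4, hm1]
        · exact (hm2 _ h2 h3 h4).le
    · exact (hpos a ha' h0).le
  set E : AO O (Ker lam) := cst (B.coeff 0) + AddMonoidAlgebra.single b (B.coeff b) with hE
  have hE0 : E.coeff 0 = B.coeff 0 := by
    rw [hE]; unfold cst
    simp [hb0]
  have hEb : E.coeff b = B.coeff b := by
    rw [hE]; unfold cst
    simp [Ne.symm hb0]
  have hEa : ∀ a, a ≠ 0 → a ≠ b → E.coeff a = 0 := by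
    intro a h1 h2
    rw [hE]; unfold cst
    simp [Ne.symm h1, Ne.symm h2]
  have hgp : gpart lam' 0 G = emK (Ker lam) (cst c * E) := by
    apply AddMonoidAlgebra.ext
    apply Finsupp.ext
    intro a
    rw [gpart_coeff]
    by_cases hK : lam a = 0
    · have e1 := emK_coeff (Ker lam) (cst c * E) ⟨a, mem_Ker.mpr hK⟩
      change (emK (Ker lam) (cst c * E)).coeff a = _ at e1
      rw [e1, cst_mul_coeff]
      have e2 := congrArg (fun F => F.coeff (⟨a, mem_Ker.mpr hK⟩ : Ker lam)) hcB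
      simp only [res_coeff, cst_mul_coeff] at e2
      have e3 := hker ⟨a, mem_Ker.mpr hK⟩
      change lam' a = _ at e3
      by_cases h3 : (⟨a, mem_Ker.mpr hK⟩ : Ker lam) = 0
      · rw [e3, e2, h3, map_zero, if_pos rfl, hE0]
      · by_cases h4 : (⟨a, mem_Ker.mpr hK⟩ : Ker lam) = b
        · rw [e3, e2, h4, hm1, if_pos rfl, hEb]
        · rw [hEa _ h3 h4, mul_zero]
          split_ifs with h5
          · rw [e3] at h5
            by_contra h6
            exact absurd h5 (hm2 _ (hsuppB ⟨a, mem_Ker.mpr hK⟩ h6) h3 h4).ne'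
          · rfl
    · rw [emK_coeff_not _ _ _ (fun h => hK (mem_Ker.mp h))]
      split_ifs with h5
      · by_contra h6
        exact absurd h5 (hpos a h6 hK).ne'
      · rfl
  have hprim : Prim E := by
    intro d hd
    rw [cst_dvd_iff] at hd
    have := hd 0
    rw [hE0] at this
    exact isUnit_of_dvd_unit this hu0
  have hw : Wdep E := ⟨0, by change E.coeff 0 ≠ 0; rw [hE0]; exact hu0.ne_zero, b,
    by change E.coeff b ≠ 0; rw [hEb]; exact hub.ne_zero, Ne.symm hb0⟩
  have hfull : FullAt mu E := edge_full hEv hb0 hu0 hub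
    (hmu.1 b (Finsupp.mem_support_iff.mpr hb) hb0)
  have hdvd : emK (Ker lam) E ∣ gpart lam' 0 G := by
    rw [hgp]
    exact map_dvd _ (dvd_mul_left E (cst c))
  have hfin := (hC3 O L G (emK (Ker lam) E) lam' mu' hG hGs hnn
    (fullAt_emK (Ker lam) _ mu mu' hmu' hfull) (prim_emK _ _ hprim) (wdep_emK _ _ hw) hdvd).2
  apply hnot
  intro a ha
  by_contra h0
  exact absurd (hfin a ha) (hpos a ha h0).ne'

end

theorem fce (hEv : EvRS) (hA1 : A1S) (hM1 : M1S) (hSl : SlMulS) (hSh : SharpS) (hExt : ExtS)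
    (hSt : StSpecS) (hFa : FaceS) (hB2 : B2cS) (hB3 : B3S) (hC0 : Coeff0S) (hB4 : B4S)
    (hPr : PrimS) (hC2 : C2S) (hC3 : C3S) (hRay : RaySpanS) (hRk : RkS) (hMV : MVS) (hE1 : E1S)
    (hThin : ThinS) : FacetS := by
  classical
  intro O _ _ _ _ P L _ _ _ _ _ phi I J G lam hW hn _ hrk hfr hcls
  have h0 : G.coeff 0 ≠ 0 := hW.st.1
  have hres0 : (res (Ker lam) G).coeff 0 = G.coeff 0 := res_coeff (Ker lam) G 0
  have hresne : res (Ker lam) G ≠ 0 := by
    intro h
    apply h0
    rw [← hres0, h]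
    rfl
  obtain ⟨c, B, hc, hcB, hP⟩ := (hPr O (Ker lam) (res (Ker lam) G) 1).2.2 hresne
  have hst := (hFa O L G lam hW.st hn).2
  have hB : Stable B := by
    obtain ⟨b, hb1, hb2, -⟩ := hB4 O (Ker lam) _ (cst c) B hst hcB
    have hb : b = 0 := by
      by_contra hb
      apply hb1.1
      rw [← single_eq, AddMonoidAlgebra.coeff_single, Finsupp.single_eq_of_ne (Ne.symm hb)]
    rw [hb, neg_zero, mon_zero, one_mul] at hb2
    exact hb2
  have hcoef : ∀ a : Ker lam, G.coeff (a : L) = c * B.coeff a := by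
    intro a
    have h1 := congrArg (fun F => F.coeff a) hcB
    simpa only [res_coeff, cst_mul_coeff] using h1
  have hsupp : ∀ a : Ker lam, a ∈ supp B ↔ (a : L) ∈ supp G := by
    intro a
    change B.coeff a ≠ 0 ↔ G.coeff (a : L) ≠ 0
    rw [hcoef a]
    simp [hc]
  have hnot : ¬ ∀ a ∈ supp G, lam a = 0 := by
    intro h
    have h1 : {a | a ∈ supp G ∧ lam a = 0} = supp G := by
      ext a
      exact ⟨fun h2 => h2.1, fun h2 => ⟨h2, h a h2⟩⟩
    rw [h1, hW.spn] at hrk
    omega
  have himg : incl (Ker lam) '' supp B = {a | a ∈ supp G ∧ lam a = 0} := by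
    ext a
    constructor
    · rintro ⟨b, hb, rfl⟩
      exact ⟨(hsupp b).mp hb, mem_Ker.mp b.2⟩
    · rintro ⟨h1, h2⟩
      exact ⟨⟨a, mem_Ker.mpr h2⟩, (hsupp _).mpr h1, rfl⟩
  have hrkB : rk (supp B) + 1 = Module.finrank ℤ L := by
    rw [← (hRk (Ker lam) L).2.2.2.1 (incl (Ker lam)) (supp B) (incl_inj _), himg]
    exact hrk
  have hww : ∀ a ∈ supp B, WW phi I J (a : L) := fun a ha => hW.ww _ ((hsupp a).mp ha)
  refine ⟨c, B, hc, hcB, hP, hB, ?_, hww, hrkB, ?_, ?_⟩
  · intro h hi hd hd2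
    exact coprime_sharp hC2 hC3 hB4 hPr hSh hSt hC0 hSl hExt hW.irr hW.st hn hnot hB hP
      ⟨cst c, by rw [hcB, mul_comm]⟩ h hi hd hd2
  · intro N hN
    have h1 : G.coeff 0 = c * B.coeff 0 := hcoef 0
    rw [h1] at hN
    obtain ⟨N1, N2, h2, h3, h4⟩ := (hE1 O).1 N _ _ hN
    refine ⟨N2, ?_, h3⟩
    have h5 := h2.1
    have h6 := h3.1
    rw [h4]
    nlinarith
  · intro θ hθ
    have h1 : G.coeff 0 = c * B.coeff 0 := hcoef 0
    rw [h1] at hθ
    rcases (hE1 O).2 θ _ _ hθ with h2 | h2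
    · exfalso
      have h3 : M (B.coeff 0) = 1 := ((hMV O).1 1 _ h2.2).2
      have hu0 : IsUnit (B.coeff 0) :=
        hM1 O _ hB.1 h3 (hB3 O (Ker lam) B hB hP)
      have hthin : Thin (supp B) :=
        hThin P (Ker lam) (phi.comp (incl (Ker lam))) I J (supp B)
          (hW.inj.comp (incl_inj _)) hww
      have hwdep : Wdep B := by
        by_contra hw
        have h4 : ∀ a ∈ supp B, a = 0 := by
          intro a ha
          by_contra h5
          exact hw ⟨a, ha, 0, hB.1, h5⟩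
        have h6 : rk (supp B) = 0 := by
          unfold rk
          have h7 : Submodule.span ℤ (supp B) = ⊥ := by
            rw [Submodule.span_eq_bot]
            exact h4
          rw [h7, finrank_bot]
        omega
      obtain ⟨mu, hmu⟩ := hB.2
      obtain ⟨b, hb⟩ := (hRay O (Ker lam) B ⟨mu, hmu.1⟩ hthin).2.2 hwdep
      have hub : IsUnit (B.coeff b) := by
        refine hA1 O _ hb.1 fun z => ?_
        have h8 := (hB2 O (Ker lam) B hB).2 b hb z
        rwa [(hEv O).2.1 z _ hu0] at h8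
      exact edge_contra hC3 hExt hEv hW.irr hW.st hn hnot hB hcB hb hu0 hub
    · exact h2.2

end Pool.Agent.B5.H96
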