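import Pool.Agent.Lib.MP_b5021c_nt.H96.Slm

/-!
# Board b5, tools for row FCE: embedding of the group algebra of a sublattice
-/

namespace Pool.Agent.B5.H96

open Pool.Agent.B5
open scoped LaurentPolynomial

variable {O : Type} [CommRing O] {L : Type} [AddCommGroup L]

theorem cst_mul_coeff (c : RO O) (G : AO O L) (a : L) : (cst c * G).coeff a = c * G.coeff a :=
  AddMonoidAlgebra.coeff_single_zero_mul G c a

theorem cst_dvd_iff (c : RO O) (G : AO O L) : cst c ∣ G ↔ ∀ a, c ∣ G.coeff a := by
  classical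
  constructor
  · rintro ⟨H, rfl⟩ a
    rw [cst_mul_coeff]
    exact ⟨_, rfl⟩
  · intro h
    let f : RO O → RO O := fun x => if x = 0 then 0 else if hx : c ∣ x then hx.choose else 0
    have hf : f 0 = 0 := by simp [f]
    have hf2 : ∀ x, c ∣ x → c * f x = x := by
      intro x hx
      by_cases h0 : x = 0
      · simp [f, h0]
      · simp only [f, h0, hx, dif_pos, if_false]
        exact hx.choose_spec.symm
    refine ⟨AddMonoidAlgebra.ofCoeff (G.coeff.mapRange f hf), ?_⟩
    apply AddMonoidAlgebra.ext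
    apply Finsupp.ext
    intro a
    rw [cst_mul_coeff]
    change G.coeff a = c * f (G.coeff a)
    exact (hf2 _ (h a)).symm

theorem single_eq (a : L) (q : RO O) :
    (AddMonoidAlgebra.single a q : AO O L) = mon a * cst q := by
  unfold mon cst
  rw [AddMonoidAlgebra.single_mul_single, one_mul, add_zero]

theorem mon_mul_mon (a b : L) : (mon a * mon b : AO O L) = mon (a + b) := by
  unfold mon
  rw [AddMonoidAlgebra.single_mul_single, one_mul]

theorem mon_zero : (mon 0 : AO O L) = 1 := rfl

theorem mon_isUnit (a : L) : IsUnit (mon a : AO O L) := by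
  refine IsUnit.of_mul_eq_one (mon (-a)) ?_
  rw [mon_mul_mon, add_neg_cancel, mon_zero]

theorem cst_isUnit {c : RO O} (h : IsUnit c) : IsUnit (cst c : AO O L) := by
  obtain ⟨d, hd⟩ := h.exists_right_inv
  refine IsUnit.of_mul_eq_one (cst d) ?_
  unfold cst
  rw [AddMonoidAlgebra.single_mul_single, hd, add_zero]
  rfl

/-- The embedding of the group algebra of a sublattice. -/
noncomputable def emK (K : Submodule ℤ L) : AO O K →+* AO O L :=
  AddMonoidAlgebra.mapDomainRingHom (RO O) (incl K)

theorem incl_inj (K : Submodule ℤ L) : Function.Injective (incl K) :=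
  fun _ _ h => Subtype.ext h

theorem emK_coeff (K : Submodule ℤ L) (F : AO O K) (a : K) :
    (emK K F).coeff (a : L) = F.coeff a :=
  Finsupp.mapDomain_apply (incl_inj K) F.coeff a

theorem emK_coeff_not (K : Submodule ℤ L) (F : AO O K) (a : L) (ha : a ∉ K) :
    (emK K F).coeff a = 0 := by
  refine Finsupp.mapDomain_of_notMem_range (f := incl K) F.coeff a ?_
  rintro ⟨b, rfl⟩
  exact ha b.2

theorem emK_cst (K : Submodule ℤ L) (c : RO O) : emK K (cst c) = cst c := by
  unfold emK cst
  simp

theorem emK_supp (K : Submodule ℤ L) (F : AO O K) (a : L) (ha : a ∈ supp (emK K F)) :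
    ∃ b : K, b ∈ supp F ∧ (b : L) = a := by
  by_cases hK : a ∈ K
  · refine ⟨⟨a, hK⟩, ?_, rfl⟩
    have h1 := emK_coeff K F ⟨a, hK⟩
    change F.coeff ⟨a, hK⟩ ≠ 0
    rw [← h1]
    exact ha
  · exact absurd (emK_coeff_not K F a hK) ha

theorem gpart_coeff (lam : L →+ ℤ) (c : ℤ) (G : AO O L) (a : L) [Decidable (lam a = c)] :
    (gpart lam c G).coeff a = if lam a = c then G.coeff a else 0 := by
  classical
  unfold gpart
  change (G.coeff.filter fun a => lam a = c) a = _
  rw [Finsupp.filter_apply]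
  congr

theorem gpart_eq_emK (lam : L →+ ℤ) (G : AO O L) :
    gpart lam 0 G = emK (Ker lam) (res (Ker lam) G) := by
  classical
  apply AddMonoidAlgebra.ext
  apply Finsupp.ext
  intro a
  rw [gpart_coeff]
  by_cases h : lam a = 0
  · rw [if_pos h]
    have h1 := emK_coeff (Ker lam) (res (Ker lam) G) ⟨a, mem_Ker.mpr h⟩
    rw [res_coeff] at h1
    exact h1.symm
  · rw [if_neg h, emK_coeff_not]
    exact fun h2 => h (mem_Ker.mp h2)

theorem prim_emK (K : Submodule ℤ L) (F : AO O K) (h : Prim F) : Prim (emK K F) := by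
  intro c hc
  apply h c
  rw [cst_dvd_iff] at hc ⊢
  intro a
  rw [← emK_coeff]
  exact hc _

theorem wdep_emK (K : Submodule ℤ L) (F : AO O K) (h : Wdep F) : Wdep (emK K F) := by
  obtain ⟨a, ha, b, hb, hab⟩ := h
  refine ⟨(a : L), ?_, (b : L), ?_, fun h => hab (Subtype.ext h)⟩
  · change (emK K F).coeff (a : L) ≠ 0
    rw [emK_coeff]; exact ha
  · change (emK K F).coeff (b : L) ≠ 0
    rw [emK_coeff]; exact hb

variable [Coef O]

theorem sl_emK (K : Submodule ℤ L) (u : AddChar L Circle) (lam : L →+ ℤ) (z : Circle)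
    (F : AO O K) :
    sl u lam (spec z (emK K F)) =
      sl (u.compAddMonoidHom (incl K)) (lam.comp (incl K)) (spec z F) := by
  classical
  have h1 : (spec z (emK K F)).coeff = Finsupp.mapDomain (incl K) (spec z F).coeff := by
    apply Finsupp.ext
    intro a
    rw [spec_coeff]
    by_cases hK : a ∈ K
    · have h2 := emK_coeff K F ⟨a, hK⟩
      have h3 := Finsupp.mapDomain_apply (incl_inj K) (spec z F).coeff ⟨a, hK⟩
      have h4 : (incl K) ⟨a, hK⟩ = a := rfl
      rw [h4, spec_coeff] at h3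
      rw [h3]
      exact congrArg _ h2
    · rw [emK_coeff_not K F a hK, map_zero, Finsupp.mapDomain_of_notMem_range]
      rintro ⟨b, rfl⟩
      exact hK b.2
  unfold sl
  rw [h1, Finsupp.sum_mapDomain_index]
  · rfl
  · intro a; simp
  · intro a b c; rw [add_mul, map_add]

theorem fullAt_emK (K : Submodule ℤ L) (F : AO O K) (mu : K →+ ℤ) (mu' : L →+ ℤ)
    (hmu : ∀ a : K, mu' (a : L) = mu a) (h : FullAt mu F) : FullAt mu' (emK K F) := by
  obtain ⟨h0, hp, hz⟩ := h
  have e0 : (emK K F).coeff 0 = F.coeff 0 := emK_coeff K F 0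
  refine ⟨by rw [e0]; exact h0, ?_, ?_⟩
  · intro a ha ha0
    have ha' : a ∈ supp (emK K F) := Finsupp.mem_support_iff.mp ha
    obtain ⟨b, hb, rfl⟩ := emK_supp K F a ha'
    rw [hmu]
    refine hp b (Finsupp.mem_support_iff.mpr hb) ?_
    intro h1
    exact ha0 (by rw [h1]; rfl)
  · intro z hz0 u s hs
    rw [e0] at hz0
    rw [sl_emK] at hs
    have h2 : mu'.comp (incl K) = mu := by
      ext a
      exact hmu a
    rw [h2] at hs
    exact hz z hz0 _ s hs

end Pool.Agent.B5.H96
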