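import Pool.Agent.Lib.MP_b5021c_nt.H96.Emb
import Pool.Agent.Lib.MP_b5021c_nt.IfaceJ

/-!
# Board b5, row FCE: the face on a facet
-/

namespace Pool.Agent.B5.H96

open Pool.Agent.B5
open scoped LaurentPolynomial

variable {O : Type} [CommRing O] [IsDomain O] [IsPrincipalIdealRing O] [Coef O]
  {L : Type} [AddCommGroup L] [Module.Free ℤ L] [Module.Finite ℤ L]

theorem sat_Ker (lam : L →+ ℤ) : Sat (Ker lam) := by
  intro n a hn ha
  rw [mem_Ker] at ha ⊢
  rw [map_zsmul, smul_eq_mul] at ha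
  rcases mul_eq_zero.mp ha with h | h
  · exact absurd h hn
  · exact h

theorem sharp_mon (a : L) : sharp (mon a : AO O L) = mon (-a) := by
  unfold sharp mon
  simp

theorem wdep_of_irr {B h : AO O L} (hP : Prim B) (hi : Irreducible h) (hd : h ∣ B) : Wdep h := by
  by_contra hw
  have h0 : h ≠ 0 := hi.ne_zero
  have hex : ∃ a, h.coeff a ≠ 0 := by
    by_contra hne
    push Not at hne
    exact h0 (AddMonoidAlgebra.ext (Finsupp.ext hne))
  obtain ⟨a, ha⟩ := hex
  have h1 : h = AddMonoidAlgebra.single a (h.coeff a) := by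
    apply AddMonoidAlgebra.ext
    rw [AddMonoidAlgebra.coeff_single]
    apply Finsupp.ext
    intro b
    by_cases hb : b = a
    · subst hb; simp
    · rw [Finsupp.single_eq_of_ne hb]
      by_contra hb2
      exact hw ⟨b, hb2, a, ha, hb⟩
  rw [single_eq] at h1
  have h2 : cst (h.coeff a) ∣ B := by
    refine dvd_trans ?_ hd
    exact ⟨mon a, by rw [mul_comm]; exact h1⟩
  have h3 := hP _ h2
  have h4 : IsUnit h := by
    rw [h1]
    exact (mon_isUnit a).mul (cst_isUnit h3)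
  exact hi.not_isUnit h4

/-- product of two stable elements with a common functional -/
theorem stable_mul (hSt : StSpecS) (hC0 : Coeff0S) (hSl : SlMulS) {G H : AO O L} {mu : L →+ ℤ}
    (hG : Stable G) (hH : Stable H) (hpG : Pos mu G) (hpH : Pos mu H) :
    Stable (G * H) ∧ Pos mu (G * H) := by
  obtain ⟨h1, h2⟩ := hC0 O L G H mu hpG hpH
  refine ⟨⟨?_, mu, h2, ?_⟩, h2⟩
  · rw [h1]
    exact mul_ne_zero hG.1 hH.1
  · intro z hz u s hs
    rw [h1, map_mul] at hz
    have hz1 : evR z (G.coeff 0) ≠ 0 := left_ne_zero_of_mul hz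
    have hz2 : evR z (H.coeff 0) ≠ 0 := right_ne_zero_of_mul hz
    have hn : ∀ F : AO O L, Pos mu F → Nn mu (spec z F) := by
      intro F hF a ha
      by_cases h0 : a = 0
      · rw [h0, map_zero]
      · refine (hF a ?_ h0).le
        rw [Finsupp.mem_support_iff] at ha ⊢
        intro h3
        apply ha
        rw [spec_coeff, h3, map_zero]
    have h3 := (hSl L u mu (spec z G) (spec z H) (hn G hpG) (hn H hpH)).1
    rw [map_mul, h3, Polynomial.eval_mul]
    exact mul_ne_zero ((hSt O L G).2.2 hG mu hpG z hz1 u s hs)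
      ((hSt O L H).2.2 hH mu hpH z hz2 u s hs)

/-- The coprimality claim. -/
theorem coprime_sharp (hC2 : C2S) (hC3 : C3S) (hB4 : B4S) (hPr : PrimS) (hSh : SharpS)
    (hSt : StSpecS) (hC0 : Coeff0S) (hSl : SlMulS) (hExt : ExtS)
    {G : AO O L} {lam : L →+ ℤ} (hG : Irreducible G) (hGs : Stable G) (hn : Nn lam G)
    (hnot : ¬ ∀ a ∈ supp G, lam a = 0) {B : AO O (Ker lam)} (hB : Stable B) (hP : Prim B)
    (hdiv : B ∣ res (Ker lam) G) (h : AO O (Ker lam)) (hi : Irreducible h) (hd : h ∣ B)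
    (hd2 : h ∣ sharp B) : False := by
  obtain ⟨H1, hH1⟩ := hd
  have hd3 : sharp h ∣ B := by
    have := map_dvd (sharp (O := O) (L := Ker lam)) hd2
    rw [(hSh O (Ker lam) B).2.1] at this
    exact this
  obtain ⟨H2, hH2⟩ := hd3
  obtain ⟨mu, hmu⟩ := hB.2
  obtain ⟨b, hb1, -, hb3⟩ := hB4 O (Ker lam) B h H1 hB hH1
  obtain ⟨b', hb1', -, hb3'⟩ := hB4 O (Ker lam) B (sharp h) H2 hB hH2
  have hp1 := ((hb3 mu).2 hmu.1).1
  have hp2 := ((hb3' mu).2 hmu.1).1
  obtain ⟨hV1, hV2⟩ := stable_mul hSt hC0 hSl hb1 hb1' hp1 hp2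
  have hU : Unitary ((mon b * h) * (mon b' * sharp h) : AO O (Ker lam)) := by
    have e1 : sharp ((mon b * h) * (mon b' * sharp h) : AO O (Ker lam)) =
        mon (-b + -b') * (h * sharp h) := by
      rw [map_mul, map_mul, map_mul, sharp_mon, sharp_mon, (hSh O (Ker lam) h).2.1, ← mon_mul_mon]
      ring
    have e2 : ((mon b * h) * (mon b' * sharp h) : AO O (Ker lam)) =
        mon (b + b') * (h * sharp h) := by
      rw [← mon_mul_mon]
      ring
    obtain ⟨v, hv⟩ := mon_isUnit (O := O) ((b + b') + (b + b'))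
    refine ⟨v, ?_⟩
    rw [e1, e2, hv, mul_comm _ (mon (b + b' + (b + b'))), ← mul_assoc, mon_mul_mon]
    congr 2
    abel
  have hFull := (hC2 O (Ker lam) _ (mon b * h) (mon b' * sharp h) mu hV1 hU hV2 rfl
    (fun a ha => by
      by_cases h0 : a = 0
      · rw [h0, map_zero]
      · exact (hp1 a ha h0).le) hb1.1).1
  obtain ⟨mu', hmu'⟩ := (hExt L (Ker lam) (sat_Ker lam)).2 mu
  have hw : Wdep h := wdep_of_irr hP hi ⟨H1, hH1⟩
  have hass : Associated h (mon b * h) := by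
    obtain ⟨v, hv⟩ := mon_isUnit (O := O) b
    exact ⟨v, by rw [hv, mul_comm]⟩
  have hi' : Irreducible (mon b * h : AO O (Ker lam)) := hass.irreducible hi
  have hd' : (mon b * h : AO O (Ker lam)) ∣ B := (hass.dvd_iff_dvd_left).mp ⟨H1, hH1⟩
  have hw' : Wdep (mon b * h : AO O (Ker lam)) := wdep_of_irr hP hi' hd'
  have hP' : Prim (mon b * h : AO O (Ker lam)) := (hPr O (Ker lam) _ 1).2.1 hi' hw'
  have hdvd : emK (Ker lam) (mon b * h) ∣ gpart lam 0 G := by
    rw [gpart_eq_emK]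
    exact map_dvd _ (dvd_trans hd' hdiv)
  have hfin := hC3 O L G (emK (Ker lam) (mon b * h)) lam mu' hG hGs hn
    (fullAt_emK (Ker lam) _ mu mu' hmu' hFull) (prim_emK _ _ hP') (wdep_emK _ _ hw') hdvd
  exact hnot hfin.2

end Pool.Agent.B5.H96
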